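import Pool.Agent.SGL.StmtsG

/-!
# SGL, row PIG (helper35)

Some level of a weakly leveled planar graph has a last vertex which can be moved to the pole.
-/

namespace Pool.Agent.SGL.H35

open Pool.Agent.SGL

theorem exists_last {n : ℕ} (lev pos : Fin n → ℕ) (m : Fin n) :
    ∃ t, lev t = lev m ∧ ∀ w, lev w = lev m → pos w ≤ pos t := by
  classical
  obtain ⟨t, ht, hmax⟩ := Finset.exists_max_image (Finset.univ.filter fun w => lev w = lev m) pos
    ⟨m, by simp⟩
  refine ⟨t, (Finset.mem_filter.1 ht).2, fun w hw => hmax w (by simp [hw])⟩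

theorem pig : PigStmt := by
  classical
  intro n G lev pos hn hW
  let IL : Fin n → Prop := fun t => ∀ w, lev w = lev t → pos w ≤ pos t
  let DD : Fin n → Prop := fun t => ∃ y, G.Adj y t ∧ lev t = lev y + 1 ∧ ¬ IL y
  let UU : Fin n → Prop := fun t => ∃ z, G.Adj t z ∧ lev z = lev t + 1 ∧ ¬ IL z
  have hne : (Finset.univ.filter fun t => IL t ∧ ¬ DD t).Nonempty := by
    obtain ⟨m, -, hm⟩ := Finset.exists_min_image (Finset.univ : Finset (Fin n)) lev
      ⟨⟨0, by omega⟩, Finset.mem_univ _⟩
    obtain ⟨t, ht, hmax⟩ := exists_last lev pos m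
    refine ⟨t, ?_⟩
    simp only [Finset.mem_filter, Finset.mem_univ, true_and]
    refine ⟨fun w hw => hmax w (hw.trans ht), ?_⟩
    rintro ⟨y, -, h1, -⟩
    have := hm y (Finset.mem_univ _)
    omega
  obtain ⟨t, ht, hmax⟩ := Finset.exists_max_image _ lev hne
  obtain ⟨-, htL, htD⟩ := Finset.mem_filter.1 ht
  have htU : ¬ UU t := by
    rintro ⟨z, hz1, hz2, hz3⟩
    obtain ⟨t', ht', hmax'⟩ := exists_last lev pos z
    have hL' : IL t' := fun w hw => hmax' w (hw.trans ht')
    have hD' : DD t' := by
      by_contra hcon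
      have := hmax t' (by
        simp only [Finset.mem_filter, Finset.mem_univ, true_and]
        exact ⟨hL', hcon⟩)
      omega
    obtain ⟨y, hy1, hy2, hy3⟩ := hD'
    have hly : lev t = lev y := by omega
    have hyt : pos y < pos t := by
      by_contra hcon
      apply hy3
      intro w hw
      have := htL w (by omega)
      omega
    have h1 := hW.mono y t' t z hy1 hz1 hy2 hly (by omega) hyt
    apply hz3
    intro w hw
    have := hmax' w hw
    omega
  refine ⟨t, ?_, ?_, ?_, ?_⟩
  · intro u v _ _ h1 h2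
    exact hW.inj u v h1 h2
  · intro u v _ _ h1 h2
    rcases hW.edge u v h1 h2 with ⟨h3, h4⟩ | h3
    · exact Or.inl ⟨h3, fun w _ hw => h4 w hw⟩
    · exact Or.inr (Or.inl h3)
  · intro u v u' v' _ _ _ _ h1 h2 h3 h4 h5 h6
    exact hW.mono u v u' v' h1 h2 h3 h4 h5 h6
  · intro u hu w hwt hw
    rcases le_or_gt (lev u) (lev t) with hle | hlt
    · rcases hW.edge u t hu hle with ⟨h3, h4⟩ | h3
      · by_contra hcon
        have h5 := (h4 w hw).1
        have h6 := htL w (by omega)
        have h7 : pos w ≠ pos t := fun h => hwt (hW.inj w t (by omega) h)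
        exact h5 ⟨by omega, by omega⟩
      · by_contra hcon
        apply htD
        refine ⟨u, hu, h3, ?_⟩
        intro hI
        exact hcon (hI w hw)
    · rcases hW.edge t u hu.symm hlt.le with ⟨h3, h4⟩ | h3
      · omega
      · by_contra hcon
        apply htU
        refine ⟨u, hu.symm, h3, ?_⟩
        intro hI
        exact hcon (hI w hw)

end Pool.Agent.SGL.H35
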