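import Pool.Agent.SGL.StmtsA

/-!
# SGL, row SNF (helper35)

The start of the augmentation: a maximal planar graph as a triangulation of the sphere.
-/

namespace Pool.Agent.SGL.H35

open Pool.Agent.SGL Pool.Agent.SGE Pool.Agent.SGP Pool.Agent.SGY Pool.Agent.SGD

theorem snf (hRLZ : RlzStmt) (hNTS : NtsStmt) (hCOL : ColStmt) : SnfStmt := by
  intro n G a hn hG
  obtain ⟨T, hT, hle, htri⟩ := hG
  obtain ⟨a', b', c', E, F, hNT, hTE, hiso, hrel⟩ := hRLZ T hn hT
  have hS : Sph E (fF (Sum.inl a') (Sum.inl b') (Sum.inl c') F) := hNTS hNT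
  refine ⟨E, fF (Sum.inl a') (Sum.inl b') (Sum.inl c') F, hS, ?_, ?_, ?_⟩
  · rintro p q ⟨u, v, rfl, rfl, h⟩
    exact (hTE u v).2 (hle h)
  · rintro (v | i)
    · exact ⟨fun _ => ⟨v, rfl⟩, fun _ => hrel v⟩
    · constructor
      · rintro ⟨y, hy⟩
        exact absurd hy (hiso i y).1
      · rintro ⟨v, hv⟩
        exact absurd hv (by simp)
  · rintro p q r hNF ⟨x, y, rfl, rfl, h1⟩ ⟨y', z, hy', rfl, h2⟩ ⟨z', x', hz', hx', h3⟩
    obtain rfl : y = y' := Sum.inl_injective hy'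
    obtain rfl : z = z' := Sum.inl_injective hz'
    obtain rfl : x = x' := Sum.inl_injective hx'
    by_contra hcon
    have hax : a ≠ x := fun h => hcon (Or.inl (by rw [h]))
    have hay : a ≠ y := fun h => hcon (Or.inr (Or.inl (by rw [h])))
    have haz : a ≠ z := fun h => hcon (Or.inr (Or.inr (by rw [h])))
    have hpre := htri x y z h1 h2 h3 hax hay haz
    obtain ⟨χ, hχ1, hχ2⟩ := hCOL hS hNF
    have hwalk : ∀ s t : {v : Fin n | v ≠ x ∧ v ≠ y ∧ v ≠ z},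
        (T.induce {v | v ≠ x ∧ v ≠ y ∧ v ≠ z}).Walk s t →
        χ (Sum.inl (s : Fin n)) = χ (Sum.inl (t : Fin n)) := by
      intro s t w
      induction w with
      | nil => rfl
      | @cons s s' t h _ ih =>
        rw [← ih]
        have hadj : T.Adj (s : Fin n) (s' : Fin n) := h
        refine hχ1 _ _ ((hTE _ _).2 hadj) ?_ ?_ ?_ ?_ ?_ ?_
        · exact fun h => s.2.1 (Sum.inl_injective h)
        · exact fun h => s.2.2.1 (Sum.inl_injective h)
        · exact fun h => s.2.2.2 (Sum.inl_injective h)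
        · exact fun h => s'.2.1 (Sum.inl_injective h)
        · exact fun h => s'.2.2.1 (Sum.inl_injective h)
        · exact fun h => s'.2.2.2 (Sum.inl_injective h)
    have hapex : ∀ p q w : Fin n ⊕ Fin 3,
        fF (Sum.inl a') (Sum.inl b') (Sum.inl c') F p q w → p ≠ w ∧ q ≠ w ∧
          ∃ w' : Fin n, w = Sum.inl w' := by
      intro p q w hw
      have e1 := hS.fe _ _ _ (hS.rot _ _ _ hw)
      have e2 := hS.fe _ _ _ (hS.rot _ _ _ (hS.rot _ _ _ hw))
      refine ⟨?_, ?_, ?_⟩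
      · rintro rfl; exact hS.irr _ e2
      · rintro rfl; exact hS.irr _ e1
      · rcases w with w | i
        · exact ⟨w, rfl⟩
        · exact absurd e2 (hiso i _).1
    obtain ⟨u, hu⟩ := hS.ex hNF.1
    obtain ⟨v, hv⟩ := hS.ex (hS.sym _ _ hNF.1)
    obtain ⟨hu1, hu2, u', rfl⟩ := hapex _ _ _ hu
    obtain ⟨hv1, hv2, v', rfl⟩ := hapex _ _ _ hv
    refine hχ2 _ _ hu hv ?_
    have hu3 : u' ≠ z := by rintro rfl; exact hNF.2.2.2.1 hu
    have hv3 : v' ≠ z := by rintro rfl; exact hNF.2.2.2.2 hv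
    have hu' : u' ∈ {v : Fin n | v ≠ x ∧ v ≠ y ∧ v ≠ z} :=
      ⟨fun h => hu1 (by rw [h]), fun h => hu2 (by rw [h]), hu3⟩
    have hv' : v' ∈ {v : Fin n | v ≠ x ∧ v ≠ y ∧ v ≠ z} :=
      ⟨fun h => hv2 (by rw [h]), fun h => hv1 (by rw [h]), hv3⟩
    obtain ⟨w⟩ := hpre ⟨u', hu'⟩ ⟨v', hv'⟩
    exact hwalk _ _ w

end Pool.Agent.SGL.H35
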